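import Mathlib

/-!
A necessary condition for graceful complete multipartite graphs: the sum of the squares of the
part sizes is at least a fixed proportion of the square of the number of vertices.
-/

namespace Pool.Agent.Results.MP_7fd98a_co.BalancedNotGraceful

open Finset Real

/-- A graph with `q` edges is graceful if it has an injective labelling `f : V → {0, …, q}` for
which the values `|f u - f v|` of the edges `uv` are pairwise distinct. -/
def Graceful {V : Type} (G : SimpleGraph V) : Prop :=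
  ∃ f : V → ℕ, Function.Injective f ∧ (∀ v, f v ≤ G.edgeSet.ncard) ∧
    ∀ u v u' v', G.Adj u v → G.Adj u' v' →
      ((f u : ℤ) - f v).natAbs = ((f u' : ℤ) - f v').natAbs → s(u, v) = s(u', v')

/-- The complete multipartite graph with parts of sizes `n 0, …, n (k-1)`. -/
abbrev K {k : ℕ} (n : Fin k → ℕ) : SimpleGraph (Σ i : Fin k, Fin (n i)) :=
  SimpleGraph.completeMultipartiteGraph (fun i : Fin k => Fin (n i))

theorem dirichlet (θ : ℝ) (q : ℕ) :
    sin (θ / 2) * (1 + 2 * ∑ d ∈ Icc 1 q, cos ((d : ℝ) * θ)) = sin (((q : ℝ) + 1 / 2) * θ) := by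
  induction q with
  | zero =>
    simp
    congr 1
    ring
  | succ q ih =>
    rw [Finset.sum_Icc_succ_top (by omega)]
    have h : sin (θ / 2) * (2 * cos (((q : ℝ) + 1) * θ))
        = sin (((q : ℝ) + 1 + 1 / 2) * θ) - sin (((q : ℝ) + 1 / 2) * θ) := by
      have h1 : ((q : ℝ) + 1 + 1 / 2) * θ = ((q : ℝ) + 1) * θ + θ / 2 := by ring
      have h2 : ((q : ℝ) + 1 / 2) * θ = ((q : ℝ) + 1) * θ - θ / 2 := by ring
      rw [h1, h2, sin_add, sin_sub]
      ring
    push_cast
    linarith [ih, h]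

theorem kernel_bound {q : ℕ} (hq : 1 ≤ q) :
    1 + 2 * ∑ d ∈ Icc 1 q, cos ((d : ℝ) * (3 * π / (2 * q + 1)))
      ≤ -(2 / (3 * π)) * (2 * q + 1) := by
  set θ : ℝ := 3 * π / (2 * q + 1) with hθ
  have hq1 : (1 : ℝ) ≤ q := by exact_mod_cast hq
  have hpi := Real.pi_pos
  have hden : (0 : ℝ) < 2 * q + 1 := by linarith
  have hθpos : 0 < θ / 2 := by positivity
  have hθle : θ / 2 ≤ π / 2 := by
    rw [hθ]
    have : 3 * π / (2 * (q : ℝ) + 1) ≤ π := by
      rw [div_le_iff₀ hden]
      nlinarith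
    linarith
  have hs : 0 < sin (θ / 2) := sin_pos_of_pos_of_lt_pi hθpos (by linarith)
  have hsle : sin (θ / 2) ≤ θ / 2 := (sin_lt hθpos).le
  have hD := dirichlet θ q
  have harg : ((q : ℝ) + 1 / 2) * θ = π + π / 2 := by
    rw [hθ]; field_simp; ring
  rw [harg, sin_add, sin_pi, cos_pi, cos_pi_div_two, sin_pi_div_two] at hD
  set D := 1 + 2 * ∑ d ∈ Icc 1 q, cos ((d : ℝ) * θ) with hDdef
  have hD' : sin (θ / 2) * D = -1 := by linarith
  have hDneg : D < 0 := by
    by_contra hcon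
    push Not at hcon
    have := mul_nonneg hs.le hcon
    linarith
  have h3 : θ / 2 * D ≤ -1 := by nlinarith
  have h4 : D ≤ -1 / (θ / 2) := by
    rw [le_div_iff₀ hθpos]
    linarith
  have h5 : -1 / (θ / 2) = -(2 / (3 * π)) * (2 * q + 1) := by
    rw [hθ]; field_simp
  linarith

theorem core {V ι : Type} [Fintype V] [DecidableEq V] [DecidableEq ι] (c : V → ι)
    (G : SimpleGraph V) (hG : ∀ u v, G.Adj u v ↔ c u ≠ c v) (hgr : Graceful G)
    (hne : ∃ u v, c u ≠ c v) :
    ((Fintype.card V : ℝ)) ^ 2 ≤ (1 + 3 * π / 2) *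
      (((univ.filter (fun p : V × V => c p.1 = c p.2)).card : ℝ) - 1) := by
  classical
  obtain ⟨f, hinj, hle, hdist⟩ := hgr
  set q := G.edgeSet.ncard with hqdef
  set T : Finset (V × V) := univ.filter (fun p : V × V => c p.1 ≠ c p.2 ∧ f p.2 < f p.1) with hT
  set T' : Finset (V × V) := univ.filter (fun p : V × V => c p.1 ≠ c p.2 ∧ f p.1 < f p.2) with hT'
  set S : Finset (V × V) := univ.filter (fun p : V × V => c p.1 = c p.2) with hS
  -- injectivity of `s(·,·)` on `T`
  have hsym : Set.InjOn (fun p : V × V => s(p.1, p.2)) (T : Set (V × V)) := by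
    rintro ⟨u, v⟩ hp ⟨u', v'⟩ hp' h
    simp only [hT, coe_filter, mem_univ, true_and, Set.mem_ofPred_eq] at hp hp'
    simp only [Sym2.eq_iff] at h
    rcases h with ⟨h1, h2⟩ | ⟨h1, h2⟩
    · rw [h1, h2]
    · exfalso
      rw [h1, h2] at hp
      exact absurd hp.2 (not_lt.mpr hp'.2.le)
  have hTcard : T.card = q := by
    have himg : G.edgeSet = (fun p : V × V => s(p.1, p.2)) '' (T : Set (V × V)) := by
      ext e
      induction e with
      | _ u v =>
        simp only [SimpleGraph.mem_edgeSet, Set.mem_image, Prod.exists]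
        constructor
        · intro hadj
          have hcuv := (hG u v).mp hadj
          have hfne : f u ≠ f v := fun h => hcuv (by rw [hinj h])
          rcases lt_or_gt_of_ne hfne with h | h
          · refine ⟨v, u, ?_, Sym2.eq_swap⟩
            simp only [hT, coe_filter, mem_univ, true_and, Set.mem_ofPred_eq]
            exact ⟨fun h' => hcuv h'.symm, h⟩
          · refine ⟨u, v, ?_, rfl⟩
            simp only [hT, coe_filter, mem_univ, true_and, Set.mem_ofPred_eq]
            exact ⟨hcuv, h⟩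
        · rintro ⟨a, b, hab, h⟩
          simp only [hT, coe_filter, mem_univ, true_and, Set.mem_ofPred_eq] at hab
          have : G.Adj a b := (hG a b).mpr hab.1
          rw [← SimpleGraph.mem_edgeSet, h] at this
          exact this
    rw [hqdef, himg, hsym.ncard_image, Set.ncard_coe_finset]
  -- the differences of `T` are exactly `1, …, q`
  have hdinj : Set.InjOn (fun p : V × V => f p.1 - f p.2) (T : Set (V × V)) := by
    rintro ⟨u, v⟩ hp ⟨u', v'⟩ hp' h
    have hp0 := hp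
    have hp0' := hp'
    simp only [hT, coe_filter, mem_univ, true_and, Set.mem_ofPred_eq] at hp hp'
    simp only at h
    have h1 := hdist u v u' v' ((hG _ _).mpr hp.1) ((hG _ _).mpr hp'.1) (by omega)
    exact hsym hp0 hp0' h1
  have himage : T.image (fun p : V × V => f p.1 - f p.2) = Icc 1 q := by
    apply Finset.eq_of_subset_of_card_le
    · intro d hd
      rw [mem_image] at hd
      obtain ⟨⟨u, v⟩, hp, rfl⟩ := hd
      simp only [hT, mem_filter, mem_univ, true_and] at hp
      have := hle u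
      simp only [mem_Icc]
      omega
    · rw [Finset.card_image_of_injOn hdinj, hTcard]
      simp
  have hsumT : ∀ θ : ℝ, ∑ p ∈ T, cos (((f p.1 : ℝ) - f p.2) * θ)
      = ∑ d ∈ Icc 1 q, cos ((d : ℝ) * θ) := by
    intro θ
    rw [← himage, Finset.sum_image hdinj]
    refine Finset.sum_congr rfl ?_
    rintro ⟨u, v⟩ hp
    simp only [hT, mem_filter, mem_univ, true_and] at hp
    simp only
    rw [Nat.cast_sub hp.2.le]
  -- `T'` is the mirror image
  have hT'img : T' = T.image Prod.swap := by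
    ext ⟨u, v⟩
    simp only [hT, hT', mem_image, mem_filter, mem_univ, true_and, Prod.exists, Prod.swap_prod_mk,
      Prod.mk.injEq]
    constructor
    · rintro ⟨h1, h2⟩
      exact ⟨v, u, ⟨fun h => h1 h.symm, h2⟩, rfl, rfl⟩
    · rintro ⟨a, b, ⟨h1, h2⟩, rfl, rfl⟩
      exact ⟨fun h => h1 h.symm, h2⟩
  have hT'card : T'.card = q := by
    rw [hT'img, Finset.card_image_of_injective _ Prod.swap_injective, hTcard]
  have hsumT' : ∀ θ : ℝ, ∑ p ∈ T', cos (((f p.1 : ℝ) - f p.2) * θ)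
      = ∑ d ∈ Icc 1 q, cos ((d : ℝ) * θ) := by
    intro θ
    rw [← hsumT θ, hT'img, Finset.sum_image (fun _ _ _ _ h => Prod.swap_injective h)]
    refine Finset.sum_congr rfl ?_
    rintro ⟨u, v⟩ _
    simp only [Prod.swap_prod_mk]
    rw [← cos_neg]
    congr 1
    ring
  -- decomposition of `V × V`
  have hunion : (univ : Finset (V × V)) = S ∪ (T ∪ T') := by
    ext ⟨u, v⟩
    simp only [hS, hT, hT', mem_univ, mem_union, mem_filter, true_and, true_iff]
    by_cases h : c u = c v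
    · exact Or.inl h
    · right
      have hfne : f u ≠ f v := fun h' => h (by rw [hinj h'])
      rcases lt_or_gt_of_ne hfne with h' | h'
      · exact Or.inr ⟨h, h'⟩
      · exact Or.inl ⟨h, h'⟩
  have hdisj1 : Disjoint T T' := by
    rw [Finset.disjoint_left]
    rintro ⟨u, v⟩ h1 h2
    simp only [hT, hT', mem_filter, mem_univ, true_and] at h1 h2
    omega
  have hdisj2 : Disjoint S (T ∪ T') := by
    rw [Finset.disjoint_left]
    rintro ⟨u, v⟩ h1 h2
    simp only [hS, hT, hT', mem_union, mem_filter, mem_univ, true_and] at h1 h2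
    rcases h2 with h2 | h2
    · exact h2.1 h1
    · exact h2.1 h1
  have hcard : (Fintype.card V : ℝ) ^ 2 = S.card + 2 * q := by
    have h1 : (univ : Finset (V × V)).card = S.card + (T.card + T'.card) := by
      rw [hunion, Finset.card_union_of_disjoint hdisj2, Finset.card_union_of_disjoint hdisj1]
    rw [Finset.card_univ, Fintype.card_prod, hTcard, hT'card] at h1
    have h2 : (Fintype.card V : ℝ) * Fintype.card V = S.card + (q + q) := by exact_mod_cast h1
    nlinarith
  have hsum : ∀ θ : ℝ, ∑ p : V × V, cos (((f p.1 : ℝ) - f p.2) * θ)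
      = ∑ p ∈ S, cos (((f p.1 : ℝ) - f p.2) * θ) + 2 * ∑ d ∈ Icc 1 q, cos ((d : ℝ) * θ) := by
    intro θ
    rw [hunion, Finset.sum_union hdisj2, Finset.sum_union hdisj1, hsumT, hsumT']
    ring
  have hnonneg : ∀ θ : ℝ, 0 ≤ ∑ p : V × V, cos (((f p.1 : ℝ) - f p.2) * θ) := by
    intro θ
    have h1 : ∑ p : V × V, cos (((f p.1 : ℝ) - f p.2) * θ)
        = (∑ v : V, cos ((f v : ℝ) * θ)) ^ 2 + (∑ v : V, sin ((f v : ℝ) * θ)) ^ 2 := by
      rw [Fintype.sum_prod_type, sq, sq, Finset.sum_mul_sum, Finset.sum_mul_sum,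
        ← Finset.sum_add_distrib]
      refine Finset.sum_congr rfl fun u _ => ?_
      rw [← Finset.sum_add_distrib]
      refine Finset.sum_congr rfl fun v _ => ?_
      rw [sub_mul, cos_sub]
    rw [h1]
    positivity
  have hSle : ∀ θ : ℝ, ∑ p ∈ S, cos (((f p.1 : ℝ) - f p.2) * θ) ≤ S.card := by
    intro θ
    calc ∑ p ∈ S, cos (((f p.1 : ℝ) - f p.2) * θ) ≤ ∑ p ∈ S, (1 : ℝ) :=
          Finset.sum_le_sum fun p _ => cos_le_one _
      _ = S.card := by simp
  have hq1 : 1 ≤ q := by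
    obtain ⟨u, v, huv⟩ := hne
    have hfne : f u ≠ f v := fun h' => huv (by rw [hinj h'])
    rw [← hTcard, Nat.one_le_iff_ne_zero, Finset.card_ne_zero]
    rcases lt_or_gt_of_ne hfne with h' | h'
    · exact ⟨(v, u), by simp only [hT, mem_filter, mem_univ, true_and]; exact ⟨fun h => huv h.symm, h'⟩⟩
    · exact ⟨(u, v), by simp only [hT, mem_filter, mem_univ, true_and]; exact ⟨huv, h'⟩⟩
  have hk := kernel_bound hq1
  have h1 := hsum (3 * π / (2 * q + 1))
  have h2 := hnonneg (3 * π / (2 * q + 1))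
  have h3 := hSle (3 * π / (2 * q + 1))
  have h4 : 1 + (2 / (3 * π)) * (2 * q + 1) ≤ (S.card : ℝ) := by linarith
  have hpi := Real.pi_pos
  have h5 : 2 * (q : ℝ) = (Fintype.card V : ℝ) ^ 2 - S.card := by linarith
  rw [h5] at h4
  have h6 : (3 * π / 2) * ((2 / (3 * π)) * ((Fintype.card V : ℝ) ^ 2 - S.card + 1))
      = (Fintype.card V : ℝ) ^ 2 - S.card + 1 := by
    field_simp
  have h7 : (3 * π / 2) * (1 + (2 / (3 * π)) * ((Fintype.card V : ℝ) ^ 2 - S.card + 1))
      ≤ (3 * π / 2) * (S.card : ℝ) := mul_le_mul_of_nonneg_left h4 (by positivity)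
  rw [mul_add, h6] at h7
  linarith

theorem card_same {k : ℕ} (n : Fin k → ℕ) :
    (univ.filter (fun p : (Σ i : Fin k, Fin (n i)) × (Σ i : Fin k, Fin (n i)) =>
      p.1.1 = p.2.1)).card = ∑ i, (n i) ^ 2 := by
  rw [Finset.card_filter, Fintype.sum_prod_type, Fintype.sum_sigma]
  refine Finset.sum_congr rfl fun i _ => ?_
  have : ∀ a : Fin (n i), (∑ y : (Σ j : Fin k, Fin (n j)),
      if (⟨i, a⟩ : Σ j : Fin k, Fin (n j)).1 = y.1 then 1 else 0) = n i := by
    intro a
    rw [Fintype.sum_sigma]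
    have hj : ∀ j : Fin k, (∑ _b : Fin (n j), if i = j then 1 else 0) = if i = j then n j else 0 := by
      intro j
      split_ifs <;> simp
    simp only
    rw [Finset.sum_congr rfl fun j _ => hj j]
    simp
  simp only at this
  rw [Finset.sum_congr rfl fun a _ => this a]
  simp [sq]

theorem main {k : ℕ} (n : Fin k → ℕ) (hk : 2 ≤ k) (hn : ∀ i, 0 < n i) (h : Graceful (K n)) :
    ((∑ i, n i : ℕ) : ℝ) ^ 2 ≤ (1 + 3 * π / 2) * (((∑ i, (n i) ^ 2 : ℕ) : ℝ) - 1) := by
  have h1 := core (fun v : (Σ i : Fin k, Fin (n i)) => v.1) (K n) (by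
    intro u v
    simp [K]) h (by
    refine ⟨⟨⟨0, by omega⟩, ⟨0, hn _⟩⟩, ⟨⟨1, by omega⟩, ⟨0, hn _⟩⟩, ?_⟩
    intro hcon
    have := congrArg Fin.val hcon
    simp at this)
  rw [card_same] at h1
  simpa [Fintype.card_sigma] using h1

theorem result :
    (∀ (k : ℕ) (n : Fin k → ℕ), 2 ≤ k → (∀ i, 0 < n i) → Graceful (K n) →
      ((∑ i, n i : ℕ) : ℝ) ^ 2 ≤ (1 + 3 * π / 2) * (((∑ i, (n i) ^ 2 : ℕ) : ℝ) - 1)) ∧
    (∀ (k : ℕ) (n : Fin k → ℕ) (m : ℕ), 2 ≤ k → (∀ i, 0 < n i) → (∀ i, n i ≤ m) →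
      Graceful (K n) → ((∑ i, n i : ℕ) : ℝ) < (1 + 3 * π / 2) * m) ∧
    (∀ k m : ℕ, 6 ≤ k → 0 < m → ¬ Graceful (K (fun _ : Fin k => m))) := by
  refine ⟨fun k n hk hn h => main n hk hn h, ?_, ?_⟩
  · intro k n m hk hn hm h
    have h1 := main n hk hn h
    have hpi := Real.pi_pos
    have hS : ((∑ i, (n i) ^ 2 : ℕ) : ℝ) ≤ m * ((∑ i, n i : ℕ) : ℝ) := by
      have : ∑ i, (n i) ^ 2 ≤ m * ∑ i, n i := by
        rw [Finset.mul_sum]
        refine Finset.sum_le_sum fun i _ => ?_
        rw [sq]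
        exact Nat.mul_le_mul_right _ (hm i)
      exact_mod_cast this
    have hp : (0 : ℝ) < ((∑ i, n i : ℕ) : ℝ) := by
      have : 0 < ∑ i, n i := Finset.sum_pos (fun i _ => hn i) ⟨⟨0, by omega⟩, mem_univ _⟩
      exact_mod_cast this
    have h2 : ((∑ i, n i : ℕ) : ℝ) ^ 2 < ((1 + 3 * π / 2) * m) * ((∑ i, n i : ℕ) : ℝ) := by
      nlinarith
    rw [sq] at h2
    exact lt_of_mul_lt_mul_right h2 hp.le
  · intro k m hk hm h
    have h1 := main (fun _ : Fin k => m) (by omega) (fun _ => hm) h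
    simp only [Finset.sum_const, Finset.card_univ, Fintype.card_fin, smul_eq_mul] at h1
    push_cast at h1
    have hpi := Real.pi_pos
    have hpi' := Real.pi_lt_d2
    have hk' : (6 : ℝ) ≤ k := by exact_mod_cast hk
    have hm' : (1 : ℝ) ≤ m := by exact_mod_cast hm
    have h2 : (k : ℝ) * (k * (m : ℝ) ^ 2) ≤ (1 + 3 * π / 2) * (k * (m : ℝ) ^ 2 - 1) := by
      nlinarith
    have h3 : 0 < (k : ℝ) * (m : ℝ) ^ 2 := by positivity
    have h4 : (1 + 3 * π / 2) < k := by linarith
    nlinarith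

end Pool.Agent.Results.MP_7fd98a_co.BalancedNotGraceful
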